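import Pool.Agent.helper34.AC.Spec4

/-! Module STR of project ac: (the main step). -/

set_option autoImplicit false

open Filter Topology

namespace Pool.Agent.helper34.AC

theorem STR_N {V : Type} (G : SimpleGraph V) (U : Finset V) : 0 ≤ N G U := by
  unfold N
  positivity

theorem STR_Mk {V : Type} [DecidableEq V] (G : SimpleGraph V) (X R : Finset V) (k : ℕ) :
    0 ≤ Mk G X R k := by
  unfold Mk
  exact Finset.sum_nonneg fun S _ => mul_nonneg (by positivity) (STR_N G _)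

theorem STR_card {V : Type} (G : SimpleGraph V) (X R S : Finset V) (h : S ∈ st G X R) :
    S.card ≤ R.card := by
  classical
  unfold st at h
  rw [Finset.mem_filter, Finset.mem_powerset] at h
  exact Finset.card_le_card h.1

theorem STR_d1 (t : ℕ) : ((t.descFactorial 1 : ℕ) : ℝ) = (t : ℝ) := by
  simp

theorem STR_d2 (t : ℕ) : ((t.descFactorial 2 : ℕ) : ℝ) = 2 * (t.choose 2 : ℝ) := by
  rw [Nat.descFactorial_eq_factorial_mul_choose]
  push_cast
  norm_num [Nat.factorial]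

theorem STR_d3 (t : ℕ) : ((t.descFactorial 3 : ℕ) : ℝ) = 6 * (t.choose 3 : ℝ) := by
  rw [Nat.descFactorial_eq_factorial_mul_choose]
  push_cast
  norm_num [Nat.factorial]

/-- The sum of a Taylor polynomial over `st G X R`. -/
theorem STR_sum {V : Type} [DecidableEq V] (G : SimpleGraph V) (X R : Finset V) (a b c d : ℝ) :
    ∑ S ∈ st G X R, (a - (S.card : ℝ) * b - (S.card.choose 2 : ℝ) * c - (S.card.choose 3 : ℝ) * d) *
      N G (R \ S) = a * Mk G X R 0 - b * Mk G X R 1 - c / 2 * Mk G X R 2 - d / 6 * Mk G X R 3 := by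
  unfold Mk
  rw [Finset.mul_sum, Finset.mul_sum, Finset.mul_sum, Finset.mul_sum, ← Finset.sum_sub_distrib,
    ← Finset.sum_sub_distrib, ← Finset.sum_sub_distrib]
  apply Finset.sum_congr rfl
  intro S _
  rw [STR_d1, STR_d2, STR_d3]
  simp only [Nat.descFactorial_zero, Nat.cast_one]
  ring

/-- **STR**. -/
theorem STR (hFM2 : FM2_stmt) (hRCN : RCN_stmt) (hE1M : E1M_stmt) (hTAY : TAY_stmt)
    (hASY : ASY_stmt) (hOMF : OMF_stmt) (hXLI : XLI_stmt) : STR_stmt := by
  obtain ⟨C1, hC1, M1, hM1⟩ := hTAY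
  obtain ⟨C2, hC2, M2, hM2⟩ := hXLI
  obtain ⟨M3, hM3⟩ := hASY 1 one_pos
  obtain ⟨hp0, hp1, hpt, hp2, hp3, hpg⟩ := hE1M
  obtain ⟨hom, hommono, -, -, -, -⟩ := hOMF
  refine ⟨C1 / 3 + 3 * C2 / 2 + 1, by positivity, max (max M1 M2) (max M3 2), ?_⟩
  intro m hm V _ G U v o hU hv ho hOm hoM
  have hmM1 : M1 ≤ m := le_trans (le_trans (le_max_left _ _) (le_max_left _ _)) hm
  have hmM2 : M2 ≤ m := le_trans (le_trans (le_max_right _ _) (le_max_left _ _)) hm
  have hmM3 : M3 ≤ m := le_trans (le_trans (le_max_left _ _) (le_max_right _ _)) hm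
  have hm2 : 2 ≤ m := le_trans (le_trans (le_max_right _ _) (le_max_right _ _)) hm
  obtain ⟨-, hy2, -, -⟩ := hM2 m hmM2
  obtain ⟨-, -, -, hg8, -, -, hy0, hx0⟩ := hM3 m hmM3
  have hw0 : 0 ≤ om m := (hom m).1
  have hg1 : 1 ≤ gb m := by
    have h1 : 1 ≤ (1 + om m) ^ 8 := one_le_pow₀ (by linarith)
    linarith
  have hg0 : 0 < gb m := by linarith
  have hRc : (U.erase v).card = m := by
    rw [Finset.card_erase_of_mem hv, hU]
    rfl
  -- moments
  have hN : N G U = Mk G {v} (U.erase v) 0 := (hRCN V G U v hv).1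
  have f1 := hFM2 V G {v} (U.erase v) o 0 ho hOm
  have f2 := hFM2 V G {v} (U.erase v) o 1 ho hOm
  have f3 := hFM2 V G {v} (U.erase v) o 2 ho hOm
  rw [hRc] at f1 f2 f3
  norm_num at f1 f2 f3
  have n0 := STR_Mk G {v} (U.erase v) 0
  have n1 := STR_Mk G {v} (U.erase v) 1
  have n2 := STR_Mk G {v} (U.erase v) 2
  have n3 := STR_Mk G {v} (U.erase v) 3
  have hsumS := STR_sum G {v} (U.erase v) (gb m) (xx m) (yy m) (C1 / gb m ^ 2)
  -- termwise inequality
  have hlow : ∑ S ∈ st G {v} (U.erase v), (gb m - (S.card : ℝ) * xx m - (S.card.choose 2 : ℝ) * yy m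
      - (S.card.choose 3 : ℝ) * (C1 / gb m ^ 2)) * N G (U.erase v \ S) ≤
      ∑ S ∈ st G {v} (U.erase v), gb (m - S.card) * N G (U.erase v \ S) := by
    apply Finset.sum_le_sum
    intro S hS
    apply mul_le_mul_of_nonneg_right _ (STR_N G _)
    have h1 := STR_card G {v} (U.erase v) S hS
    rw [hRc] at h1
    have h2 := (abs_le.1 (hM1 m hmM1 S.card h1)).2
    have h3 : C1 * (S.card.choose 3 : ℝ) / gb m ^ 2 = (S.card.choose 3 : ℝ) * (C1 / gb m ^ 2) := by
      ring
    linarith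
  rw [hsumS] at hlow
  generalize Mk G {v} (U.erase v) 0 = m0 at *
  generalize Mk G {v} (U.erase v) 1 = m1 at *
  generalize Mk G {v} (U.erase v) 2 = m2 at *
  generalize Mk G {v} (U.erase v) 3 = m3 at *
  rw [hN]
  refine le_trans ?_ hlow
  -- the upper bound for gb (m+1) - 1
  have hup : gb (m + 1) - 1 ≤ gb m - xx m * om m - yy m * (om m * om (m - 1) / 2) +
      C1 / gb m ^ 2 * (om m * om (m - 1) * om (m - 2) / 6) := by
    rw [← hpg m]
    have h1 : ∑ t ∈ Finset.range (m + 1), pT m t * gb (m - t) ≤ ∑ t ∈ Finset.range (m + 1),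
        (gb m * pT m t - xx m * (pT m t * (t : ℝ)) - yy m * (pT m t * (t.choose 2 : ℝ)) +
          C1 / gb m ^ 2 * (pT m t * (t.choose 3 : ℝ))) := by
      apply Finset.sum_le_sum
      intro t ht
      have ht' : t ≤ m := by
        have := Finset.mem_range.1 ht
        omega
      have h2 := (abs_le.1 (hM1 m hmM1 t ht')).1
      have h3 : C1 * (t.choose 3 : ℝ) / gb m ^ 2 = (t.choose 3 : ℝ) * (C1 / gb m ^ 2) := by
        ring
      rw [h3] at h2
      have h4 : gb (m - t) ≤ gb m - (t : ℝ) * xx m - (t.choose 2 : ℝ) * yy m +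
          (t.choose 3 : ℝ) * (C1 / gb m ^ 2) := by linarith
      calc pT m t * gb (m - t) ≤ pT m t * (gb m - (t : ℝ) * xx m - (t.choose 2 : ℝ) * yy m +
          (t.choose 3 : ℝ) * (C1 / gb m ^ 2)) := mul_le_mul_of_nonneg_left h4 (hp0 m t)
        _ = _ := by ring
    refine h1.trans (le_of_eq ?_)
    rw [Finset.sum_add_distrib, Finset.sum_sub_distrib, Finset.sum_sub_distrib, ← Finset.mul_sum,
      ← Finset.mul_sum, ← Finset.mul_sum, ← Finset.mul_sum, hp1 m, hpt m, hp2 m hm2, hp3 m hm2,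
      mul_one]
  -- the values of om
  have hw1 : om m - 1 / gb m ≤ om (m - 1) := by
    have h1 := (hom (m - 1)).2.2
    have h2 : m - 1 + 1 = m := by omega
    rw [h2] at h1
    have h3 : 0 ≤ om (m - 1) * xx m := mul_nonneg (hom (m - 1)).1 hx0.le
    have h4 : (1 - om (m - 1) * xx m) / gb m ≤ 1 / gb m := by
      apply div_le_div_of_nonneg_right _ hg0.le
      linarith
    linarith
  have hw1' : om (m - 1) ≤ om m := hommono _ _ (by omega)
  have hw2' : om (m - 2) ≤ om m := hommono _ _ (by omega)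
  have hw10 : 0 ≤ om (m - 1) := (hom (m - 1)).1
  have hw20 : 0 ≤ om (m - 2) := (hom (m - 2)).1
  have hprod : om m * om (m - 1) * om (m - 2) ≤ (1 + om m) ^ 3 := by
    calc om m * om (m - 1) * om (m - 2) ≤ (1 + om m) * (1 + om m) * (1 + om m) := by
          apply mul_le_mul _ (by linarith) hw20 (by positivity)
          apply mul_le_mul (by linarith) (by linarith) hw10 (by positivity)
      _ = (1 + om m) ^ 3 := by ring
  generalize gb (m + 1) = g1 at *
  generalize om (m - 1) = w1 at *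
  generalize om (m - 2) = w2 at *
  generalize om m = w at *
  generalize xx m = x at *
  generalize yy m = y at *
  generalize gb m = g at *
  generalize o m = om' at *
  have hyC : y ≤ C2 / g := (le_abs_self y).trans hy2
  -- q = 1/g
  obtain ⟨q, hq⟩ : ∃ q : ℝ, q = 1 / g := ⟨_, rfl⟩
  have hq0 : 0 < q := by rw [hq]; positivity
  have hq1 : q ≤ 1 := by
    rw [hq, div_le_one hg0]
    exact hg1
  have e1 : C1 / g ^ 2 = C1 * q ^ 2 := by rw [hq]; field_simp
  have e2 : ∀ c : ℝ, c * (1 + w) ^ 3 / g ^ 2 = c * (1 + w) ^ 3 * q ^ 2 := by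
    intro c
    rw [hq]
    field_simp
  have e3 : C2 / g = C2 * q := by rw [hq]; field_simp
  rw [e2, e1]
  rw [e1] at hup
  rw [e3] at hyC
  rw [← hq] at hoM hw1
  -- bounds of the moments
  have b1 : m1 ≤ (w + q) * m0 := f1.trans (mul_le_mul_of_nonneg_right hoM n0)
  have b2 : m2 ≤ (w + q) ^ 2 * m0 := by
    calc m2 ≤ om' * m1 := f2
      _ ≤ (w + q) * m1 := mul_le_mul_of_nonneg_right hoM n1
      _ ≤ (w + q) * ((w + q) * m0) := mul_le_mul_of_nonneg_left b1 (by positivity)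
      _ = _ := by ring
  have b3 : m3 ≤ (1 + w) ^ 3 * m0 := by
    calc m3 ≤ om' * m2 := f3
      _ ≤ (w + q) * m2 := mul_le_mul_of_nonneg_right hoM n2
      _ ≤ (w + q) * ((w + q) ^ 2 * m0) := mul_le_mul_of_nonneg_left b2 (by positivity)
      _ = (w + q) ^ 3 * m0 := by ring
      _ ≤ (1 + w) ^ 3 * m0 := by
        apply mul_le_mul_of_nonneg_right _ n0
        exact pow_le_pow_left₀ (by positivity) (by linarith) 3
  -- combination
  have c1 : y / 2 * m2 ≤ y / 2 * ((w + q) ^ 2 * m0) := mul_le_mul_of_nonneg_left b2 (by positivity)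
  have c2 : C1 * q ^ 2 / 6 * m3 ≤ C1 * q ^ 2 / 6 * ((1 + w) ^ 3 * m0) :=
    mul_le_mul_of_nonneg_left b3 (by positivity)
  have c3 : C1 * q ^ 2 * (w * w1 * w2 / 6) ≤ C1 * q ^ 2 * ((1 + w) ^ 3 / 6) :=
    mul_le_mul_of_nonneg_left (by linarith) (by positivity)
  have c4 : (w + q) ^ 2 - w * w1 ≤ 3 * (1 + w) * q := by
    have h1 : w * (w - q) ≤ w * w1 := mul_le_mul_of_nonneg_left hw1 hw0
    nlinarith [mul_le_mul_of_nonneg_left hq1 hq0.le]
  have c5 : y / 2 * ((w + q) ^ 2 - w * w1) ≤ 3 * C2 / 2 * ((1 + w) ^ 3 * q ^ 2) := by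
    calc y / 2 * ((w + q) ^ 2 - w * w1) ≤ y / 2 * (3 * (1 + w) * q) :=
          mul_le_mul_of_nonneg_left c4 (by positivity)
      _ ≤ C2 * q / 2 * (3 * (1 + w) * q) := by
          apply mul_le_mul_of_nonneg_right _ (by positivity)
          linarith
      _ = 3 * C2 / 2 * ((1 + w) ^ 1 * q ^ 2) := by ring
      _ ≤ 3 * C2 / 2 * ((1 + w) ^ 3 * q ^ 2) := by
          apply mul_le_mul_of_nonneg_left _ (by positivity)
          apply mul_le_mul_of_nonneg_right _ (by positivity)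
          exact pow_le_pow_right₀ (by linarith) (by norm_num)
  have c6 : g1 - 1 + x * w - (C1 / 3 + 3 * C2 / 2 + 1) * (1 + w) ^ 3 * q ^ 2 ≤
      g - y / 2 * (w + q) ^ 2 - C1 * q ^ 2 / 6 * (1 + w) ^ 3 := by
    have h1 : 0 ≤ (1 + w) ^ 3 * q ^ 2 := by positivity
    nlinarith [hup, c3, c5]
  have c7 := mul_le_mul_of_nonneg_right c6 n0
  nlinarith [c1, c2, c7]

end Pool.Agent.helper34.AC
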