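import Pool.Agent.helper34.AC.Spec2

/-! Module ULB of project ac: (log-concavity of the Bell numbers divided by factorials). -/

set_option autoImplicit false

namespace Pool.Agent.helper34.AC

/-- Chebyshev's inequality in the form of a double sum. -/
theorem ULB_cheb (s : Finset ℕ) (p q w : ℕ → ℝ)
    (h : ∀ k ∈ s, ∀ l ∈ s, (p k * q l - p l * q k) * (w k - w l) ≤ 0) :
    (∑ k ∈ s, p k * w k) * (∑ l ∈ s, q l) ≤ (∑ k ∈ s, q k * w k) * (∑ l ∈ s, p l) := by
  have e1 : ∑ k ∈ s, ∑ l ∈ s, (p k * w k) * q l = (∑ k ∈ s, p k * w k) * (∑ l ∈ s, q l) := by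
    rw [Finset.sum_mul_sum]
  have e2 : ∑ k ∈ s, ∑ l ∈ s, p k * (q l * w l) = (∑ l ∈ s, p l) * (∑ k ∈ s, q k * w k) := by
    rw [Finset.sum_mul_sum]
  have e3 : ∑ k ∈ s, ∑ l ∈ s, (q k * w k) * p l = (∑ k ∈ s, q k * w k) * (∑ l ∈ s, p l) := by
    rw [Finset.sum_mul_sum]
  have e4 : ∑ k ∈ s, ∑ l ∈ s, q k * (p l * w l) = (∑ l ∈ s, q l) * (∑ k ∈ s, p k * w k) := by
    rw [Finset.sum_mul_sum]
  have e5 : ∑ k ∈ s, ∑ l ∈ s, (p k * q l - p l * q k) * (w k - w l) =
      ∑ k ∈ s, ∑ l ∈ s, (p k * w k) * q l - ∑ k ∈ s, ∑ l ∈ s, p k * (q l * w l) -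
      ∑ k ∈ s, ∑ l ∈ s, (q k * w k) * p l + ∑ k ∈ s, ∑ l ∈ s, q k * (p l * w l) := by
    rw [← Finset.sum_sub_distrib, ← Finset.sum_sub_distrib, ← Finset.sum_add_distrib]
    apply Finset.sum_congr rfl
    intro k _
    rw [← Finset.sum_sub_distrib, ← Finset.sum_sub_distrib, ← Finset.sum_add_distrib]
    apply Finset.sum_congr rfl
    intro l _
    ring
  have e6 : ∑ k ∈ s, ∑ l ∈ s, (p k * q l - p l * q k) * (w k - w l) ≤ 0 :=
    Finset.sum_nonpos fun k hk => Finset.sum_nonpos fun l hl => h k hk l hl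
  rw [e5, e1, e2, e3, e4] at e6
  linarith [mul_comm (∑ l ∈ s, p l) (∑ k ∈ s, q k * w k),
    mul_comm (∑ l ∈ s, q l) (∑ k ∈ s, p k * w k)]

/-- The terms of the recursion. -/
noncomputable def ULB_P (m k : ℕ) : ℝ := (m.choose k : ℝ) * bl (m - k)

/-- The weights. -/
noncomputable def ULB_w (k : ℕ) : ℝ := 1 / ((k : ℝ) + 1)

theorem ULB_rec (m : ℕ) : bl (m + 1) = ∑ k ∈ Finset.range (m + 1), ULB_P m k := by
  unfold bl ULB_P bl
  rw [Nat.bell_succ, Nat.cast_sum]
  have h : Finset.Iic m = Finset.range (m + 1) := by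
    ext x
    simp only [Finset.mem_Iic, Finset.mem_range]
    omega
  rw [h]
  apply Finset.sum_congr rfl
  intro k _
  push_cast
  rfl

theorem ULB_top (m : ℕ) : ULB_P m (m + 1) = 0 := by
  unfold ULB_P
  rw [Nat.choose_succ_self]
  simp

/-- The weighted sum. -/
noncomputable def ULB_Q (m : ℕ) : ℝ := ∑ k ∈ Finset.range (m + 1), ULB_P m k * ULB_w k

theorem ULB_rec2 (m : ℕ) : bl (m + 2) = bl (m + 1) + ((m : ℝ) + 1) * ULB_Q m := by
  rw [ULB_rec (m + 1), Finset.sum_range_succ']
  have h0 : ULB_P (m + 1) 0 = bl (m + 1) := by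
    unfold ULB_P
    simp
  rw [h0, add_comm]
  congr 1
  unfold ULB_Q
  rw [Finset.mul_sum]
  apply Finset.sum_congr rfl
  intro k _
  unfold ULB_P ULB_w
  have h1 : ((m + 1) * m.choose k : ℕ) = (m + 1).choose (k + 1) * (k + 1) :=
    Nat.add_one_mul_choose_eq m k
  have h2 : ((m : ℝ) + 1) * (m.choose k : ℝ) = ((m + 1).choose (k + 1) : ℝ) * ((k : ℝ) + 1) := by
    exact_mod_cast h1
  have h3 : (k : ℝ) + 1 ≠ 0 := by positivity
  have h4 : m + 1 - (k + 1) = m - k := by omega
  rw [h4]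
  have h5 : ((m + 1).choose (k + 1) : ℝ) = ((m : ℝ) + 1) * (m.choose k : ℝ) / ((k : ℝ) + 1) := by
    rw [h2]
    field_simp
  rw [h5]
  ring

/-- The quotient. -/
noncomputable def ULB_c (j : ℕ) : ℝ := bl (j + 1) / (((j : ℝ) + 1) * bl j)

theorem ULB_rat (hb : ∀ m : ℕ, 0 < bl m) (m k : ℕ) (hk : k ≤ m) :
    ULB_P (m + 1) k = ((m : ℝ) + 1) * ULB_P m k * ULB_c (m - k) := by
  unfold ULB_P ULB_c
  obtain ⟨j, rfl⟩ := Nat.exists_eq_add_of_le hk
  have h1 : k + j - k = j := by omega
  have h2 : k + j + 1 - k = j + 1 := by omega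
  rw [h1, h2]
  have h3 : (k + j).choose k * (k + j + 1) = (k + j + 1).choose k * (k + j + 1 - k) :=
    Nat.choose_mul_succ_eq (k + j) k
  rw [h2] at h3
  have h4 : ((k + j).choose k : ℝ) * ((k : ℝ) + j + 1) = ((k + j + 1).choose k : ℝ) * ((j : ℝ) + 1) := by
    exact_mod_cast h3
  have hj := hb j
  have hj1 : (j : ℝ) + 1 ≠ 0 := by positivity
  push_cast
  rw [eq_comm]
  calc ((k : ℝ) + j + 1) * (((k + j).choose k : ℝ) * bl j) * (bl (j + 1) / (((j : ℝ) + 1) * bl j))
      = (((k + j).choose k : ℝ) * ((k : ℝ) + j + 1)) * bl (j + 1) / ((j : ℝ) + 1) := by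
        field_simp
    _ = ((k + j + 1).choose k : ℝ) * bl (j + 1) := by
        rw [h4]
        field_simp

/-- **ULB**. -/
theorem ULB (hBRC : BRC_stmt) : ULB_stmt := by
  obtain ⟨-, -, -, -, -, hb, -⟩ := hBRC
  intro n
  induction n using Nat.strong_induction_on with
  | _ n ih =>
  rcases n with _ | m
  · have h0 : bl 0 = 1 := by unfold bl; simp
    have h1 : bl 1 = 1 := by unfold bl; simp
    have h2 : bl 2 = 2 := by unfold bl; simp
    norm_num [h0, h1, h2]
  · -- monotonicity of the quotients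
    have hstep : ∀ j, j < m + 1 → ULB_c (j + 1) ≤ ULB_c j := by
      intro j hj
      have h1 := ih j hj
      have hb0 := hb j
      have hb1 := hb (j + 1)
      unfold ULB_c
      rw [div_le_div_iff₀ (by positivity) (by positivity)]
      push_cast
      nlinarith [h1]
    have hmono : ∀ a b, a ≤ b → b ≤ m + 1 → ULB_c b ≤ ULB_c a := by
      intro a b hab
      induction b, hab using Nat.le_induction with
      | base => intro _; exact le_refl _
      | succ b hab ihb =>
        intro hb1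
        exact (hstep b (by omega)).trans (ihb (by omega))
    have hP : ∀ m k, 0 ≤ ULB_P m k := by
      intro m k
      unfold ULB_P
      have := hb (m - k)
      positivity
    -- the Chebyshev inequality
    have hcross : ∀ k l, l ≤ k → k ≤ m + 1 →
        0 ≤ ULB_P (m + 1) k * ULB_P m l - ULB_P (m + 1) l * ULB_P m k := by
      intro k l hlk hk
      rcases Nat.lt_or_ge m k with hkm | hkm
      · have : k = m + 1 := by omega
        rw [this, ULB_top, mul_zero, sub_zero]
        exact mul_nonneg (hP _ _) (hP _ _)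
      · rw [ULB_rat hb m k hkm, ULB_rat hb m l (by omega)]
        have h1 : ULB_c (m - l) ≤ ULB_c (m - k) := hmono _ _ (by omega) (by omega)
        have h2 : 0 ≤ ((m : ℝ) + 1) * (ULB_P m k * ULB_P m l) := by
          have := hP m k
          have := hP m l
          positivity
        nlinarith [mul_nonneg h2 (sub_nonneg.2 h1)]
    have hw : ∀ k l : ℕ, l ≤ k → ULB_w k - ULB_w l ≤ 0 := by
      intro k l hlk
      unfold ULB_w
      have : (l : ℝ) ≤ k := by exact_mod_cast hlk
      rw [sub_nonpos]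
      apply one_div_le_one_div_of_le (by positivity)
      linarith
    have hche := ULB_cheb (Finset.range (m + 2)) (fun k => ULB_P (m + 1) k) (fun k => ULB_P m k)
      ULB_w (by
        intro k hk l hl
        have hk' : k ≤ m + 1 := by have := Finset.mem_range.1 hk; omega
        have hl' : l ≤ m + 1 := by have := Finset.mem_range.1 hl; omega
        rcases le_total l k with hlk | hkl
        · exact mul_nonpos_of_nonneg_of_nonpos (hcross k l hlk hk') (hw k l hlk)
        · have h1 := hcross l k hkl hl'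
          have h2 := hw l k hkl
          nlinarith [mul_nonneg h1 (neg_nonneg.2 h2)])
    have e1 : ∑ k ∈ Finset.range (m + 2), ULB_P m k = bl (m + 1) := by
      rw [Finset.sum_range_succ, ULB_top, add_zero, ← ULB_rec]
    have e2 : ∑ k ∈ Finset.range (m + 2), ULB_P m k * ULB_w k = ULB_Q m := by
      rw [Finset.sum_range_succ, ULB_top, zero_mul, add_zero]
      rfl
    have e3 : ∑ k ∈ Finset.range (m + 2), ULB_P (m + 1) k = bl (m + 2) := (ULB_rec (m + 1)).symm
    have e4 : ∑ k ∈ Finset.range (m + 2), ULB_P (m + 1) k * ULB_w k = ULB_Q (m + 1) := rfl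
    simp only [e1, e2, e3, e4] at hche
    -- Q m ≤ bl (m + 1)
    have hQ : ULB_Q m ≤ bl (m + 1) := by
      rw [ULB_rec m]
      unfold ULB_Q
      apply Finset.sum_le_sum
      intro k _
      have h1 : ULB_w k ≤ 1 := by
        unfold ULB_w
        rw [div_le_one (by positivity)]
        have : (0 : ℝ) ≤ k := by positivity
        linarith
      calc ULB_P m k * ULB_w k ≤ ULB_P m k * 1 := mul_le_mul_of_nonneg_left h1 (hP m k)
        _ = ULB_P m k := mul_one _
    have r1 := ULB_rec2 m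
    have r2 := ULB_rec2 (m + 1)
    have r2' : bl (m + 3) = bl (m + 2) + ((m : ℝ) + 2) * ULB_Q (m + 1) := by
      have : m + 1 + 2 = m + 3 := rfl
      rw [this] at r2
      rw [r2]
      push_cast
      ring
    have b1 := hb (m + 1)
    have b2 := hb (m + 2)
    have k1 : ((m : ℝ) + 2) ^ 2 * (ULB_Q (m + 1) * bl (m + 1)) ≤
        ((m : ℝ) + 2) ^ 2 * (ULB_Q m * bl (m + 2)) :=
      mul_le_mul_of_nonneg_left hche (by positivity)
    have k2 : ULB_Q m * bl (m + 2) ≤ bl (m + 1) * bl (m + 2) :=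
      mul_le_mul_of_nonneg_right hQ b2.le
    have k3 : ((m : ℝ) + 3) * (bl (m + 2) * bl (m + 2)) =
        ((m : ℝ) + 3) * (bl (m + 2) * (bl (m + 1) + ((m : ℝ) + 1) * ULB_Q m)) := by
      rw [← r1]
    push_cast
    have g1 : m + 1 + 2 = m + 3 := rfl
    have g2 : m + 1 + 1 = m + 2 := rfl
    rw [g1, g2, r2']
    nlinarith [k1, k2, k3]

end Pool.Agent.helper34.AC
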